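import Pool.Agent.H5.BHG.Stmts5

/-! # Row FN3 of the board `bh3` -/

set_option autoImplicit false

namespace Pool.BHG

open Filter TMLib Pool.PG Pool.DPG

private lemma fn3_win (hTP3 : TP3Stmt) (c : ℕ) (g : Game) (hg : Valid g)
    (hne : so3 c (cmp g) ≠ []) :
    (so3 c (cmp g)).length = g.length ∧
      ∀ v < g.length, Win g ((so3 c (cmp g)).getD v false) v := by
  obtain ⟨hv, hw⟩ := cmw g hg
  have hlen : (Pool.PG.cmp g).length = g.length := by simp [Pool.PG.cmp]
  obtain ⟨h1, h2⟩ := hTP3 c (cmp g) hv hne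
  refine ⟨h1.trans hlen, fun v hvl => ?_⟩
  exact (hw v hvl _).1 (h2 v (by rw [hlen]; exact hvl))

/-- Row FN3. -/
theorem fn3_thm (hTC3 : TC3Stmt) (hTP3 : TP3Stmt) (hMX3 : MX3Stmt) (hHL3 : HL3Stmt)
    (hPS3 : PS3Stmt) : FN3Stmt := by
  intro C
  obtain ⟨c, hc⟩ := hHL3 C
  refine ⟨fun g => so3 c (cmp g), bot_all.1 (List Bool) (so3 c) (hPS3 c), ?_, ?_⟩
  · intro g hg hne
    exact fn3_win hTP3 c g hg hne
  · intro g hg hdeg
    have hM : Lx c g := hc g hg hdeg
    by_cases h0 : so3 c (cmp g) = []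
    · have hlen : (Pool.PG.cmp g).length = g.length := by simp [Pool.PG.cmp]
      have hg0 : g.length = 0 := by
        by_contra hne
        exact hTC3 c (cmp g) (by rw [hlen]; omega) (cmw g hg).1 (hMX3 c g hg hM) h0
      refine ⟨?_, fun v hvl => by omega⟩
      show (so3 c (cmp g)).length = g.length
      rw [h0, hg0]
      rfl
    · exact fn3_win hTP3 c g hg h0

end Pool.BHG
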